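import Pool.Agent.H92.Zonal

set_option autoImplicit false
open MeasureTheory

namespace Pool.Agent.Results.MP_a2f83a_an.SmallNodal

theorem result : ∀ (k : ℕ) (ε : ℝ), 0 < ε → ∃ u : EuclideanSpace ℝ (Fin 3) → ℝ,
    InnerProductSpace.HarmonicOnNhd u (Metric.ball 0 1) ∧
    (∃ x ∈ Metric.ball (0 : EuclideanSpace ℝ (Fin 3)) 1, u x ≠ 0) ∧
    (∀ j < k, iteratedFDeriv ℝ j u 0 = 0) ∧
    Measure.hausdorffMeasure 1 {x : EuclideanSpace ℝ (Fin 3) | ‖x‖ = 1 / 2 ∧ u x = 0} ≤ ENNReal.ofReal ε :=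
  fun k _ hε => Pool.Agent.H92.Zonal.main k hε

end Pool.Agent.Results.MP_a2f83a_an.SmallNodal
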